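import Pool.Agent.Helper69.UX.StE

/-!
# Project UX (MP_e12aa9_pr), module UXT: the variance
-/

set_option autoImplicit false

namespace Pool.Agent.Helper1.UX

open Finset Filter Pool.Agent.Helper82.CN Pool.Agent.Helper11.PV Pool.Agent.Helper69.VX
  Pool.Agent.Helper69.UX

lemma p_lt_one {p : ℝ} (h : p ≤ 1 - 1 / Real.exp 2) : p < 1 := by
  have : 0 < 1 / Real.exp 2 := by positivity
  linarith

lemma KK_nonneg {p ε C δ : ℝ} {n T : ℕ} {th : ℝ} {κ : ℕ → ℝ} {lam mu : ℝ} (hp1 : p < 1)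
    (h : Par p ε C δ n T th κ lam mu) : 0 ≤ KK T κ := by
  refine Finset.sum_nonneg fun u hu => ?_
  rw [Finset.mem_range] at hu
  rcases Nat.eq_zero_or_pos u with h0 | h0
  · rw [h.zer u (Or.inl h0)]
  · rw [h.eq u h0 (by omega)]
    have h1 : 0 ≤ 1 - p := by linarith
    have h2 : 0 ≤ om p u := by unfold om; positivity
    positivity

lemma Par_mono {p ε C δ δ' : ℝ} {n T : ℕ} {th : ℝ} {κ : ℕ → ℝ} {lam mu : ℝ} (hp1 : p < 1)
    (hδ : δ ≤ δ') (h : Par p ε C δ n T th κ lam mu) : Par p ε C δ' n T th κ lam mu :=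
  ⟨h.eq, h.zer, h.sum, h.ent, h.lam1, h.lam2,
    h.mean.trans (mul_le_mul_of_nonneg_right hδ (KK_nonneg hp1 h)), h.tail, h.top, h.nxt⟩

lemma card_le_ind {n : ℕ} {ω : Sym2 (Fin n) → Bool} {P : Finset (Finset (Fin n))} (h : prp ω P)
    {A : Finset (Fin n)} (hA : A ∈ P) : A.card ≤ ind ω := by
  classical
  unfold ind Pool.Agent.Helper69.VX.al
  exact Finset.le_sup (f := card) (by
    simp only [mem_filter, mem_univ, true_and]
    exact h A hA)

/-- the numerical part -/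
lemma fin_num {n T : ℕ} {th ε : ℝ} (hε : 0 < ε) (hε1 : ε ≤ 1 / 24) (hth : 1 / 2 ≤ th)
    (hl : 1 / ε ≤ Real.log n) (hT8 : (T : ℝ) ^ 8 ≤ (n : ℝ) ^ ε)
    (hT4 : 4 ≤ T) (hTn : T + 4 ≤ n) (hl8 : Real.log n ^ 8 ≤ (n : ℝ) ^ ε)
    {EI DS EB : ℝ} (hEI : EI ≤ T + 2)
    (hDS : DS ≤ Real.exp ((n : ℝ) ^ (th + 4 * ε)) * Real.exp (-(n : ℝ) ^ (th + 5 * ε)))
    (hEB : EB ≤ (n : ℝ) ^ (th - 1 + ε) + ((T : ℝ) + 1) * ((n : ℝ) ^ (-(3 : ℝ)) +
      (n : ℝ) ^ (-(3 : ℝ)) + Real.exp (-(n : ℝ) ^ (th + 4 * ε)))) :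
    (n : ℝ) ^ (th + 8 * ε - 1) * n * EI + (n : ℝ) ^ (th + 7 * ε) + (n : ℝ) ^ 2 * DS + 2 * n * EB ≤
      (n : ℝ) ^ (th + 9 * ε) := by
  have hn8 : 8 ≤ n := by omega
  have hnR : (8 : ℝ) ≤ n := by exact_mod_cast hn8
  have hn0 : (0 : ℝ) < n := by linarith
  have hn1 : (1 : ℝ) ≤ n := by linarith
  have hTR : (4 : ℝ) ≤ T := by exact_mod_cast hT4
  have hTnR : (T : ℝ) + 4 ≤ n := by exact_mod_cast hTn
  have hlog : 24 ≤ Real.log n := by
    refine le_trans ?_ hl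
    rw [le_div_iff₀ hε]
    linarith
  set x := (n : ℝ) ^ ε with hx
  set y := (n : ℝ) ^ (th + 8 * ε) with hy
  have hy1 : 1 ≤ y := Real.one_le_rpow hn1 (by linarith)
  have hy9 : (n : ℝ) ^ (th + 9 * ε) = y * x := by
    rw [hy, hx, ← Real.rpow_add hn0]; congr 1; ring
  have h1 : (n : ℝ) ^ (th + 8 * ε - 1) * n = y := by
    rw [Real.rpow_sub_one hn0.ne', div_mul_cancel₀ _ hn0.ne']
  have h2 : (n : ℝ) ^ (th + 7 * ε) ≤ y := Real.rpow_le_rpow_of_exponent_le hn1 (by linarith)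
  have h3 : (n : ℝ) * (n : ℝ) ^ (th - 1 + ε) ≤ y := by
    have : (n : ℝ) * (n : ℝ) ^ (th - 1 + ε) = (n : ℝ) ^ (th + ε) := by
      rw [show th + ε = (th - 1 + ε) + 1 by ring, Real.rpow_add_one hn0.ne', mul_comm]
    rw [this]
    exact Real.rpow_le_rpow_of_exponent_le hn1 (by linarith)
  -- the exponentials
  have h4 : 2 * Real.log n ≤ x := by
    refine le_trans ?_ hl8
    have e1 : (2 : ℝ) ≤ Real.log n ^ 7 := by
      calc (2 : ℝ) ≤ 24 ^ 7 := by norm_num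
        _ ≤ Real.log n ^ 7 := pow_le_pow_left₀ (by norm_num) hlog 7
    calc 2 * Real.log n ≤ Real.log n ^ 7 * Real.log n :=
          mul_le_mul_of_nonneg_right e1 (by linarith)
      _ = Real.log n ^ 8 := by ring
  have h5 : x ≤ (n : ℝ) ^ (th + 4 * ε) := Real.rpow_le_rpow_of_exponent_le hn1 (by linarith)
  have h6 : 2 * (n : ℝ) ^ (th + 4 * ε) ≤ (n : ℝ) ^ (th + 5 * ε) := by
    have e1 : (n : ℝ) ^ (th + 5 * ε) = x * (n : ℝ) ^ (th + 4 * ε) := by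
      rw [hx, ← Real.rpow_add hn0]; congr 1; ring
    rw [e1]
    exact mul_le_mul_of_nonneg_right (by linarith) (by positivity)
  have hexp : Real.exp (-(2 * Real.log n)) = 1 / (n : ℝ) ^ 2 := by
    rw [Real.exp_neg, two_mul, Real.exp_add, Real.exp_log hn0, one_div, sq]
  have h7 : Real.exp (-(n : ℝ) ^ (th + 4 * ε)) ≤ 1 / (n : ℝ) ^ 2 := by
    rw [← hexp]
    exact Real.exp_le_exp.mpr (by linarith)
  have h8 : (n : ℝ) ^ 2 * DS ≤ 1 := by
    have e1 : DS ≤ 1 / (n : ℝ) ^ 2 := by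
      refine hDS.trans ?_
      rw [← Real.exp_add, ← hexp]
      exact Real.exp_le_exp.mpr (by linarith)
    calc (n : ℝ) ^ 2 * DS ≤ (n : ℝ) ^ 2 * (1 / (n : ℝ) ^ 2) :=
          mul_le_mul_of_nonneg_left e1 (by positivity)
      _ = 1 := by field_simp
  have h9 : (n : ℝ) ^ (-(3 : ℝ)) ≤ 1 / (n : ℝ) ^ 2 := by
    rw [Real.rpow_neg hn0.le, show (3 : ℝ) = ((3 : ℕ) : ℝ) by norm_num, Real.rpow_natCast,
      ← one_div]
    exact one_div_le_one_div_of_le (by positivity) (pow_le_pow_right₀ hn1 (by norm_num))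
  have h10 : 2 * n * EB ≤ 2 * y + 6 := by
    have e1 : ((T : ℝ) + 1) * ((n : ℝ) ^ (-(3 : ℝ)) +
      (n : ℝ) ^ (-(3 : ℝ)) + Real.exp (-(n : ℝ) ^ (th + 4 * ε))) ≤ n * (3 * (1 / (n : ℝ) ^ 2)) := by
      apply mul_le_mul (by linarith) (by linarith) (by positivity) hn0.le
    have e2 : (n : ℝ) * (3 * (1 / (n : ℝ) ^ 2)) = 3 / n := by
      field_simp
    calc 2 * n * EB ≤ 2 * n * ((n : ℝ) ^ (th - 1 + ε) + 3 / n) := by
          apply mul_le_mul_of_nonneg_left _ (by positivity)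
          linarith
      _ = 2 * (n * (n : ℝ) ^ (th - 1 + ε)) + 6 := by
          field_simp
          ring
      _ ≤ 2 * y + 6 := by linarith
  have h11 : (T : ℝ) + 12 ≤ x := by
    refine le_trans ?_ hT8
    have e1 : (4 : ℝ) ≤ (T : ℝ) ^ 7 := by
      calc (4 : ℝ) ≤ 4 ^ 7 := by norm_num
        _ ≤ (T : ℝ) ^ 7 := pow_le_pow_left₀ (by norm_num) hTR 7
    have e2 : (T : ℝ) ^ 8 = (T : ℝ) ^ 7 * T := by ring
    rw [e2]
    nlinarith
  rw [hy9, h1]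
  have h12 : y * EI ≤ y * (T + 2) := mul_le_mul_of_nonneg_left hEI (by linarith)
  have h13 : y * ((T : ℝ) + 12) ≤ y * x := mul_le_mul_of_nonneg_left h11 (by linarith)
  nlinarith

open Classical in
lemma bad_bound {p : ℝ} (hp0 : 0 ≤ p) (hp1 : p ≤ 1) {n T : ℕ}
    (bad Eb Ec Ed : (Sym2 (Fin n) → Bool) → Prop)
    (hbad : ∀ ω, bad ω ↔ (T + 2 ≤ ind ω ∨ Eb ω ∨ Ec ω ∨ Ed ω)) {x b c d : ℝ}
    (hx : EE p (fun ω : Sym2 (Fin n) → Bool => if T + 2 ≤ ind ω then (ind ω : ℝ) else 0) ≤ x)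
    (hb : PP p Eb ≤ b) (hc : PP p Ec ≤ c) (hd : PP p Ed ≤ d) :
    EE p (fun ω : Sym2 (Fin n) → Bool => if bad ω then (ind ω : ℝ) else 0) ≤
      x + ((T : ℝ) + 1) * (b + c + d) := by
  have e1 : ∀ ω : Sym2 (Fin n) → Bool,
      (if bad ω then (ind ω : ℝ) else 0) ≤
      (if T + 2 ≤ ind ω then (ind ω : ℝ) else 0) + ((T : ℝ) + 1) *
        ((if Eb ω then (1 : ℝ) else 0) + (if Ec ω then (1 : ℝ) else 0) +
          (if Ed ω then (1 : ℝ) else 0)) := by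
    intro ω
    have hTp : (0 : ℝ) ≤ (T : ℝ) + 1 := by positivity
    have hb0 : (0 : ℝ) ≤ (if Eb ω then (1 : ℝ) else 0) := by split_ifs <;> norm_num
    have hc0 : (0 : ℝ) ≤ (if Ec ω then (1 : ℝ) else 0) := by split_ifs <;> norm_num
    have hd0 : (0 : ℝ) ≤ (if Ed ω then (1 : ℝ) else 0) := by split_ifs <;> norm_num
    have hpos : 0 ≤ ((T : ℝ) + 1) *
        ((if Eb ω then (1 : ℝ) else 0) + (if Ec ω then (1 : ℝ) else 0) +
          (if Ed ω then (1 : ℝ) else 0)) := mul_nonneg hTp (by linarith)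
    by_cases ha : T + 2 ≤ ind ω
    · rw [if_pos ((hbad ω).mpr (Or.inl ha)), if_pos ha]
      linarith
    · have hle : (ind ω : ℝ) ≤ (T : ℝ) + 1 := by
        have : ind ω ≤ T + 1 := by omega
        exact_mod_cast this
      rw [if_neg ha]
      by_cases hall : bad ω
      · rw [if_pos hall]
        have h1 : (1 : ℝ) ≤ (if Eb ω then (1 : ℝ) else 0) + (if Ec ω then (1 : ℝ) else 0) +
          (if Ed ω then (1 : ℝ) else 0) := by
          rcases (hbad ω).mp hall with h | h | h | h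
          · exact absurd h ha
          · rw [if_pos h]; linarith
          · rw [if_pos h]; linarith
          · rw [if_pos h]; linarith
        nlinarith
      · rw [if_neg hall]
        linarith
  refine le_trans (EE_mono hp0 hp1 e1) ?_
  rw [EE_add, EE_mul_left, EE_add, EE_add]
  have hTp : (0 : ℝ) ≤ (T : ℝ) + 1 := by positivity
  refine add_le_add hx (mul_le_mul_of_nonneg_left ?_ hTp)
  exact add_le_add (add_le_add hb hc) hd

open Classical in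
theorem hUXT : StPAR → StGFM → StDSM → StECL → StVBD → StIDN → StMAX → StPRQ → StSIZ → StUXT := by
  intro hPAR hGFM hDSM hECL hVBD hIDN hMAX hPRQ hSIZ p ε hp0 hp1 hε hε1
  have hp : p < 1 := p_lt_one hp1
  obtain ⟨C, hC, hPar⟩ := hPAR p ε hp0 hp1 hε hε1
  obtain ⟨C₁, hC1, hG⟩ := hGFM p ε C hp0 hp1 hε hε1 hC
  obtain ⟨J, δD, hδD, n1, hD⟩ := hDSM p ε C C₁ hp0 hp1 hε hε1 hC hC1
  obtain ⟨δE, hδE, n2, hE⟩ := hECL p ε C hp0 hp1 hε hε1 hC
  obtain ⟨n3, hG3⟩ := hG C₁ δD J le_rfl hδD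
  obtain ⟨n4, hP4⟩ := hPar (min δD δE) (lt_min hδD hδE)
  obtain ⟨n5, hI⟩ := hIDN p ε hp0 hp1 hε hε1
  obtain ⟨n6, hM⟩ := hMAX p ε hp0 hp1 hε hε1
  obtain ⟨n7, hS⟩ := hSIZ p ε ε 0 hp0 hp1 hε hε1 hε
  refine ⟨n1 + n2 + n3 + n4 + n5 + n6 + n7, fun n T th hn hW => ?_⟩
  obtain ⟨κ, lam, mu, hpar⟩ := hP4 n T th (by omega) hW
  have hparD : Par p ε C δD n T th κ lam mu := Par_mono hp (min_le_left _ _) hpar
  have hparE : Par p ε C δE n T th κ lam mu := Par_mono hp (min_le_right _ _) hpar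
  have hEc := hE n T th κ lam mu (by omega) hW hparE
  obtain ⟨hG4, hG5⟩ := hG3 n T th κ lam mu (by omega) hW hparD
  obtain ⟨hI1, hI2, -⟩ := hI n T th (by omega) hW
  have hM1 := hM n T th (by omega) hW
  have hSz := hS n T th (by omega) hW
  obtain ⟨-, hth, hth1⟩ := id hW
  have hT4 : 4 ≤ T := by have := hSz.t4.1; omega
  have hTn : T + 4 ≤ n := by have := hSz.t4.2; omega
  have hnR : (1 : ℝ) ≤ n := by exact_mod_cast (by omega : 1 ≤ n)
  have hn0 : (0 : ℝ) < n := by linarith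
  have hq : 0 < 1 - p := by linarith
  -- the data
  set t : ℝ := (n : ℝ) ^ (th + 8 * ε - 1) with ht
  have ht0 : 0 ≤ t := by positivity
  have ht1 : t ≤ 1 := Real.rpow_le_one_of_one_le_of_nonpos hnR (by linarith)
  have htp : 0 ≤ (1 - t * p) / (1 - p) := by
    refine div_nonneg ?_ hq.le
    nlinarith
  set 𝒜 : Finset (Finset (Finset (Fin n))) := (QQ ε n T th κ).filter
    (fun P => Good p C₁ δD ((n : ℝ) ^ (th + 5 * ε)) n T J κ P) with h𝒜
  set 𝒟 : Finset (Finset (Finset (Fin n))) := (QQ ε n T th κ).filter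
    (fun P => ¬ Good p C₁ δD ((n : ℝ) ^ (th + 5 * ε)) n T J κ P) with h𝒟
  set Ea : (Sym2 (Fin n) → Bool) → Prop := fun ω => T + 2 ≤ ind ω with hEa
  set Eb : (Sym2 (Fin n) → Bool) → Prop := fun ω => ∃ P ∈ Pt (Fin n), prp ω P ∧
    (n : ℝ) ^ (th + 2 * ε) ≤ (P.filter (fun A => A.card = T + 1)).card with hEb
  set Ecc : (Sym2 (Fin n) → Bool) → Prop := fun ω => KK T κ + (n : ℝ) ^ (th + 3 * ε) < ch (gr ω)
    with hEcc
  set Ed : (Sym2 (Fin n) → Bool) → Prop := fun ω => ∃ P ∈ 𝒟, prp ω P with hEd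
  have hQPt : ∀ P ∈ QQ ε n T th κ, P ∈ Pt (Fin n) := fun P hP => (mem_filter.mp hP).1
  have hbad : ∀ ω : Sym2 (Fin n) → Bool, ∀ P ∈ Pt (Fin n), prp ω P →
      P.card = (gr ω).chromaticNumber.toNat → P ∉ 𝒜 → (Ea ω ∨ Eb ω ∨ Ecc ω ∨ Ed ω) := by
    intro ω P hP hprp hcard hPA
    by_contra hcon
    simp only [not_or] at hcon
    obtain ⟨ha, hb, hc, hd⟩ := hcon
    have hsz : ∀ A ∈ P, A.card ≤ T + 1 := by
      intro A hA
      have e1 := card_le_ind hprp hA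
      have e2 : ¬ (T + 2 ≤ ind ω) := ha
      omega
    have hb' : (((P.filter (fun A => A.card = T + 1)).card : ℕ) : ℝ) ≤ (n : ℝ) ^ (th + 2 * ε) := by
      by_contra h
      exact hb ⟨P, hP, hprp, (not_le.mp h).le⟩
    have hc' : (P.card : ℝ) ≤ KK T κ + (n : ℝ) ^ (th + 3 * ε) := by
      have e1 : ¬ (KK T κ + (n : ℝ) ^ (th + 3 * ε) < ch (gr ω)) := hc
      have e2 : ch (gr ω) = (P.card : ℝ) := by unfold ch; rw [hcard]
      rw [e2] at e1
      exact not_lt.mp e1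
    have hPQ : P ∈ QQ ε n T th κ := by
      unfold QQ
      rw [mem_filter]
      exact ⟨hP, hsz, hb', hc'⟩
    refine hd ⟨P, ?_, hprp⟩
    rw [h𝒟, mem_filter]
    refine ⟨hPQ, fun hgood => hPA ?_⟩
    rw [h𝒜, mem_filter]
    exact ⟨hPQ, hgood⟩
  have hV := hVBD p t ((n : ℝ) ^ (th + 7 * ε)) n 𝒜 (fun ω => Ea ω ∨ Eb ω ∨ Ecc ω ∨ Ed ω) hp0 hp
    ht0 ht1 (by positivity) (fun P hP => hQPt P (mem_filter.mp hP).1) hbad
  -- the double sum
  have hDS : ∑ P ∈ 𝒜, ∑ Q ∈ 𝒜.filter (fun Q => (n : ℝ) ^ (th + 7 * ε) < (ovl P Q : ℝ)),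
      (1 - p) ^ (inn P + inn Q) * ((1 - t * p) / (1 - p)) ^ ovl P Q ≤
      Real.exp ((n : ℝ) ^ (th + 4 * ε)) * Real.exp (-(n : ℝ) ^ (th + 5 * ε)) := by
    calc ∑ P ∈ 𝒜, ∑ Q ∈ 𝒜.filter (fun Q => (n : ℝ) ^ (th + 7 * ε) < (ovl P Q : ℝ)),
          (1 - p) ^ (inn P + inn Q) * ((1 - t * p) / (1 - p)) ^ ovl P Q
        ≤ ∑ P ∈ 𝒜, (1 - p) ^ inn P * Real.exp (-(n : ℝ) ^ (th + 5 * ε)) := by
          refine Finset.sum_le_sum fun P hP => ?_
          have hP2 := (mem_filter.mp hP).2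
          have e1 := hD n T th κ lam mu P (by omega) hW hparD hP2
          have e2 : ∑ Q ∈ 𝒜.filter (fun Q => (n : ℝ) ^ (th + 7 * ε) < (ovl P Q : ℝ)),
              (1 - p) ^ (inn P + inn Q) * ((1 - t * p) / (1 - p)) ^ ovl P Q =
              (1 - p) ^ inn P * ∑ Q ∈ 𝒜.filter (fun Q => (n : ℝ) ^ (th + 7 * ε) < (ovl P Q : ℝ)),
              (1 - p) ^ inn Q * ((1 - t * p) / (1 - p)) ^ ovl P Q := by
            rw [Finset.mul_sum]
            refine Finset.sum_congr rfl fun Q _ => ?_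
            rw [pow_add]
            ring
          rw [e2]
          refine mul_le_mul_of_nonneg_left ?_ (by positivity)
          refine le_trans (Finset.sum_le_sum_of_subset_of_nonneg ?_ ?_) e1
          · intro Q hQ
            rw [mem_filter] at hQ ⊢
            exact ⟨(mem_filter.mp hQ.1).1, hQ.2⟩
          · intro Q _ _
            exact mul_nonneg (by positivity) (pow_nonneg htp _)
      _ = (∑ P ∈ 𝒜, (1 - p) ^ inn P) * Real.exp (-(n : ℝ) ^ (th + 5 * ε)) := by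
          rw [Finset.sum_mul]
      _ ≤ Real.exp ((n : ℝ) ^ (th + 4 * ε)) * Real.exp (-(n : ℝ) ^ (th + 5 * ε)) := by
          refine mul_le_mul_of_nonneg_right ?_ (Real.exp_pos _).le
          refine le_trans (Finset.sum_le_sum_of_subset_of_nonneg (Finset.filter_subset _ _) ?_) hG5
          intro Q _ _
          positivity
  -- the bad event
  have hPd : PP p Ed ≤ Real.exp (-(n : ℝ) ^ (th + 4 * ε)) := by
    refine le_trans ?_ hG4
    have e1 : ∀ P ∈ 𝒟, (1 - p) ^ inn P =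
        EE p (fun ω : Sym2 (Fin n) → Bool => if prp ω P then (1 : ℝ) else 0) := by
      intro P hP
      have hPt := hQPt P (mem_filter.mp hP).1
      exact (hPRQ p 0 n P P hp hPt hPt).1.symm
    rw [Finset.sum_congr rfl e1, ← EE_sum]
    unfold PP
    refine EE_mono hp0.le hp.le fun ω => ?_
    by_cases h : Ed ω
    · rw [if_pos h]
      obtain ⟨P, hP, hprp⟩ := h
      have e2 : (if prp ω P then (1 : ℝ) else 0) ≤ ∑ P ∈ 𝒟, if prp ω P then (1 : ℝ) else 0 :=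
        Finset.single_le_sum (f := fun P => if prp ω P then (1 : ℝ) else 0)
          (fun P _ => by split_ifs <;> norm_num) hP
      rw [if_pos hprp] at e2
      exact e2
    · rw [if_neg h]
      exact Finset.sum_nonneg fun P _ => by split_ifs <;> norm_num
  have hEB := bad_bound hp0.le hp.le (fun ω => Ea ω ∨ Eb ω ∨ Ecc ω ∨ Ed ω) Eb Ecc Ed
    (fun _ => Iff.rfl) hI2 hM1 hEc hPd
  refine hV.trans ?_
  exact fin_num hε hε1 hth hSz.t0 hSz.t3 hT4 hTn hSz.t6 hI1 hDS hEB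

end Pool.Agent.Helper1.UX
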